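import Mathlib

set_option autoImplicit false
set_option linter.deprecated false

open MeasureTheory

namespace Pool.Agent.Lib.MP_d2b88b_pr

variable {E : Type}

/-- The Bernoulli product measure. -/
noncomputable abbrev bern (E : Type) (p : NNReal) (hp : p ≤ 1) : Measure (E → Bool) :=
  Measure.infinitePi (fun _ : E => (PMF.bernoulli p hp).toMeasure)

lemma meas_open (F : Finset E) : MeasurableSet {ω : E → Bool | ∀ e ∈ F, ω e = true} := by
  have : {ω : E → Bool | ∀ e ∈ F, ω e = true} = Set.pi (F : Set E) (fun _ => {true}) := by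
    ext ω; simp [Set.mem_pi]
  rw [this]
  exact MeasurableSet.pi F.countable_toSet (fun _ _ => MeasurableSet.singleton _)

lemma bern_all_open (p : NNReal) (hp : p ≤ 1) (F : Finset E) :
    bern E p hp {ω | ∀ e ∈ F, ω e = true} = (p : ENNReal) ^ F.card := by
  have : {ω : E → Bool | ∀ e ∈ F, ω e = true} = Set.pi (F : Set E) (fun _ => {true}) := by
    ext ω; simp [Set.mem_pi]
  rw [this, bern, Measure.infinitePi_pi _ (fun _ _ => MeasurableSet.singleton _)]
  have h1 : (PMF.bernoulli p hp).toMeasure {true} = (p : ENNReal) := by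
    rw [PMF.toMeasure_apply_singleton _ _ (MeasurableSet.singleton _), PMF.bernoulli_apply]
    rfl
  simp [h1]

lemma bern_real_all_open (p : NNReal) (hp : p ≤ 1) (F : Finset E) :
    (bern E p hp).real {ω | ∀ e ∈ F, ω e = true} = (p : ℝ) ^ F.card := by
  rw [Measure.real, bern_all_open]
  simp

/-- Second moment bound. -/
lemma second_moment (p : NNReal) (hp : p ≤ 1) (hp0 : 0 < p) {Γ : Type} [Fintype Γ] [Nonempty Γ]
    [DecidableEq E] (F : Γ → Finset E) (n : ℕ) (hcard : ∀ γ, (F γ).card ≤ n) (M : ℝ)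
    (hM : ∑ γ, ∑ γ', (p : ℝ) ^ (F γ ∪ F γ').card ≤ M * ((Fintype.card Γ : ℝ) * (p : ℝ) ^ n) ^ 2) :
    (bern E p hp).real {ω | ∀ γ, ¬ ∀ e ∈ F γ, ω e = true} ≤ M - 1 := by
  classical
  set μ := bern E p hp with hμ
  set c : ℝ := (Fintype.card Γ : ℝ) * (p : ℝ) ^ n with hc
  have hcard0 : (0 : ℝ) < Fintype.card Γ := by exact_mod_cast Fintype.card_pos
  have hp0' : (0 : ℝ) < p := by exact_mod_cast hp0
  have hp1' : (p : ℝ) ≤ 1 := by exact_mod_cast hp
  have hc0 : 0 < c := by positivity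
  let S : Γ → Set (E → Bool) := fun γ => {ω | ∀ e ∈ F γ, ω e = true}
  have hS : ∀ γ, MeasurableSet (S γ) := fun γ => meas_open (F γ)
  let Z : (E → Bool) → ℝ := fun ω => (∑ γ, (S γ).indicator (fun _ => (1 : ℝ)) ω) / c
  have hint : ∀ γ, Integrable ((S γ).indicator (fun _ => (1 : ℝ))) μ :=
    fun γ => (integrable_const _).indicator (hS γ)
  have hZint : Integrable Z μ := (integrable_finset_sum _ (fun γ _ => hint γ)).div_const c
  have hZ1 : 1 ≤ ∫ ω, Z ω ∂μ := by
    have : ∫ ω, Z ω ∂μ = (∑ γ, (p : ℝ) ^ (F γ).card) / c := by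
      simp only [Z]
      rw [integral_div, integral_finset_sum _ (fun γ _ => hint γ)]
      congr 1
      apply Finset.sum_congr rfl
      intro γ _
      rw [integral_indicator_const _ (hS γ), bern_real_all_open]
      simp
    rw [this, le_div_iff₀ hc0, one_mul, hc]
    have : ∀ γ ∈ (Finset.univ : Finset Γ), (p : ℝ) ^ n ≤ (p : ℝ) ^ (F γ).card :=
      fun γ _ => pow_le_pow_of_le_one hp0'.le hp1' (hcard γ)
    have := Finset.sum_le_sum this
    simpa using this
  have hZsq : ∀ ω, Z ω ^ 2 = (∑ γ, ∑ γ', (S γ ∩ S γ').indicator (fun _ => (1 : ℝ)) ω) / c ^ 2 := by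
    intro ω
    simp only [Z]
    rw [div_pow, sq, Finset.sum_mul_sum]
    congr 1
    apply Finset.sum_congr rfl
    intro γ _
    apply Finset.sum_congr rfl
    intro γ' _
    by_cases h1 : ω ∈ S γ <;> by_cases h2 : ω ∈ S γ' <;> simp [h1, h2]
  have hint2 : ∀ γ γ', Integrable ((S γ ∩ S γ').indicator (fun _ => (1 : ℝ))) μ :=
    fun γ γ' => (integrable_const _).indicator ((hS γ).inter (hS γ'))
  have hZ2int : Integrable (fun ω => Z ω ^ 2) μ := by
    simp_rw [hZsq]
    exact (integrable_finset_sum _ (fun γ _ =>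
      integrable_finset_sum _ (fun γ' _ => hint2 γ γ'))).div_const _
  have hZ2 : ∫ ω, Z ω ^ 2 ∂μ ≤ M := by
    simp_rw [hZsq]
    rw [integral_div, integral_finset_sum _ (fun γ _ =>
      integrable_finset_sum _ (fun γ' _ => hint2 γ γ'))]
    rw [div_le_iff₀ (by positivity)]
    refine le_trans (le_of_eq ?_) hM
    apply Finset.sum_congr rfl
    intro γ _
    rw [integral_finset_sum _ (fun γ' _ => hint2 γ γ')]
    apply Finset.sum_congr rfl
    intro γ' _
    rw [integral_indicator_const _ ((hS γ).inter (hS γ'))]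
    have : S γ ∩ S γ' = {ω | ∀ e ∈ F γ ∪ F γ', ω e = true} := by
      ext ω
      simp only [S, Set.mem_inter_iff, Set.mem_setOf_eq, Finset.mem_union]
      constructor
      · rintro ⟨h1, h2⟩ e (he | he)
        · exact h1 e he
        · exact h2 e he
      · intro h
        exact ⟨fun e he => h e (Or.inl he), fun e he => h e (Or.inr he)⟩
    rw [this, bern_real_all_open]
    simp
  let T : Set (E → Bool) := {ω | ∀ γ, ¬ ∀ e ∈ F γ, ω e = true}
  have hT : MeasurableSet T := by
    have : T = ⋂ γ, (S γ)ᶜ := by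
      ext ω
      simp only [T, S, Set.mem_setOf_eq, Set.mem_iInter, Set.mem_compl_iff]
    rw [this]
    exact MeasurableSet.iInter (fun γ => (hS γ).compl)
  have hkey : μ.real T ≤ ∫ ω, (Z ω ^ 2 - 2 * Z ω + 1) ∂μ := by
    have h1 : μ.real T = ∫ ω, T.indicator (fun _ => (1 : ℝ)) ω ∂μ := by
      rw [integral_indicator_const _ hT]; simp
    rw [h1]
    apply integral_mono ((integrable_const _).indicator hT)
    · exact (hZ2int.sub (hZint.const_mul 2)).add (integrable_const _)
    · intro ω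
      by_cases hω : ω ∈ T
      · have hZ0 : Z ω = 0 := by
          simp only [Z]
          rw [div_eq_zero_iff]
          left
          apply Finset.sum_eq_zero
          intro γ _
          have hωγ : ω ∉ S γ := hω γ
          exact Set.indicator_of_notMem hωγ _
        simp [hω, hZ0]
      · simp only [hω, not_false_eq_true, Set.indicator_of_notMem]
        nlinarith [sq_nonneg (Z ω - 1)]
  have hcalc : ∫ ω, (Z ω ^ 2 - 2 * Z ω + 1) ∂μ = ∫ ω, Z ω ^ 2 ∂μ - 2 * ∫ ω, Z ω ∂μ + 1 := by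
    have e1 : ∫ ω, (Z ω ^ 2 - 2 * Z ω + 1) ∂μ = ∫ ω, (Z ω ^ 2 - 2 * Z ω) ∂μ + ∫ _, (1 : ℝ) ∂μ :=
      integral_add (hZ2int.sub (hZint.const_mul 2)) (integrable_const _)
    have e2 : ∫ ω, (Z ω ^ 2 - 2 * Z ω) ∂μ = ∫ ω, Z ω ^ 2 ∂μ - ∫ ω, 2 * Z ω ∂μ :=
      integral_sub hZ2int (hZint.const_mul 2)
    rw [e1, e2, integral_const_mul]
    simp
  rw [hcalc] at hkey
  change μ.real T ≤ M - 1
  linarith

end Pool.Agent.Lib.MP_d2b88b_pr
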