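import Mathlib

set_option autoImplicit false

namespace Pool.Agent.Lib.MP_d2b88b_pr

/-- lattice points -/
abbrev V := Fin 6 → ℤ

/-- steps -/
abbrev Step (m : ℕ) := (Fin 4 → Bool) × Fin m

/-- the four middle coordinates -/
def xi (i : Fin 4) : Fin 6 := i.castSucc.succ

/-- the last coordinate -/
def yi : Fin 6 := (Fin.last 4).succ

/-- 0/1 value of a bit -/
def bit (b : Bool) : ℤ := if b then 1 else 0

/-- the displacement of a step -/
def vec {m : ℕ} (ξ : Step m) : V :=
  Fin.cons 1 (Fin.snoc (α := fun _ : Fin 5 => ℤ) (fun i => bit (ξ.1 i)) (ξ.2 : ℤ))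

@[simp] lemma vec_zero {m : ℕ} (ξ : Step m) : vec ξ 0 = 1 := rfl
@[simp] lemma vec_xi {m : ℕ} (ξ : Step m) (i : Fin 4) : vec ξ (xi i) = bit (ξ.1 i) := by
  simp [vec, xi]
@[simp] lemma vec_yi {m : ℕ} (ξ : Step m) : vec ξ yi = (ξ.2 : ℤ) := by
  unfold vec yi
  rw [Fin.cons_succ, Fin.snoc_last]

lemma coord_cases (P : Fin 6 → Prop) (h0 : P 0) (hx : ∀ i, P (xi i)) (hy : P yi) : ∀ j, P j := by
  intro j
  refine Fin.cases h0 ?_ j
  intro k
  refine Fin.lastCases hy ?_ k
  intro i
  exact hx i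

lemma bit_inj {a b : Bool} (h : bit a = bit b) : a = b := by
  cases a <;> cases b <;> simp_all [bit]

lemma vec_inj {m : ℕ} {ξ ξ' : Step m} (h : vec ξ = vec ξ') : ξ = ξ' := by
  ext1
  · funext i
    have := congrFun h (xi i)
    rw [vec_xi, vec_xi] at this
    exact bit_inj this
  · have := congrFun h yi
    rw [vec_yi, vec_yi] at this
    exact Fin.ext (by exact_mod_cast this)

/-- one-dimensional lazy walk probabilities -/
noncomputable def q : ℕ → ℤ → ℝ
  | 0, z => if z = 0 then 1 else 0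
  | t + 1, z => (q t (z - 1) + 2 * q t z + q t (z + 1)) / 4

lemma q_nonneg : ∀ (t : ℕ) (z : ℤ), 0 ≤ q t z
  | 0, z => by unfold q; split_ifs <;> norm_num
  | t + 1, z => by
    have h1 := q_nonneg t (z - 1)
    have h2 := q_nonneg t z
    have h3 := q_nonneg t (z + 1)
    unfold q; positivity

/-- integer-index binomials -/
def zc : ℕ → ℤ → ℕ
  | 0, j => if j = 0 then 1 else 0
  | m + 1, j => zc m j + zc m (j - 1)

lemma zc_neg : ∀ (m : ℕ) (j : ℤ), j < 0 → zc m j = 0
  | 0, j, h => by unfold zc; rw [if_neg (ne_of_lt h)]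
  | m + 1, j, h => by
    unfold zc
    rw [zc_neg m j h, zc_neg m (j - 1) (by omega)]

lemma zc_nat : ∀ (m j : ℕ), zc m (j : ℤ) = m.choose j
  | 0, 0 => by simp [zc]
  | 0, j + 1 => by
    unfold zc
    rw [if_neg (by push_cast; omega)]
    simp
  | m + 1, 0 => by
    unfold zc
    rw [zc_nat m 0, zc_neg m _ (by simp)]
    simp
  | m + 1, j + 1 => by
    unfold zc
    have : ((j + 1 : ℕ) : ℤ) - 1 = (j : ℤ) := by push_cast; ring
    rw [this, zc_nat m (j + 1), zc_nat m j, Nat.choose_succ_succ, add_comm]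

lemma q_eq : ∀ (t : ℕ) (z : ℤ), q t z = (zc (2 * t) (t + z) : ℝ) / 4 ^ t
  | 0, z => by
    simp only [q, zc, Nat.cast_zero, zero_add, pow_zero, div_one]
    split_ifs <;> simp
  | t + 1, z => by
    have h1 := q_eq t (z - 1)
    have h2 := q_eq t z
    have h3 := q_eq t (z + 1)
    have e : 2 * (t + 1) = 2 * t + 1 + 1 := by ring
    unfold q
    rw [h1, h2, h3, e]
    simp only [zc]
    have a1 : ((t + 1 : ℕ) : ℤ) + z = t + (z + 1) := by push_cast; ring
    have a2 : (t : ℤ) + (z + 1) - 1 = t + z := by ring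
    have a3 : (t : ℤ) + z - 1 = t + (z - 1) := by ring
    rw [a1, a2, a3]
    push_cast
    field_simp
    ring

lemma q_zero (t : ℕ) : q t 0 = (Nat.centralBinom t : ℝ) / 4 ^ t := by
  rw [q_eq, add_zero, zc_nat, Nat.centralBinom]

lemma q_zero_sq : ∀ t : ℕ, (q t 0) ^ 2 ≤ 1 / (2 * t + 1)
  | 0 => by simp [q]
  | t + 1 => by
    have ih := q_zero_sq t
    have hrec : q (t + 1) 0 = q t 0 * ((2 * t + 1) / (2 * t + 2)) := by
      rw [q_zero, q_zero]
      have := Nat.succ_mul_centralBinom_succ t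
      have h2 : ((t : ℝ) + 1) * (Nat.centralBinom (t + 1) : ℝ) =
          2 * (2 * t + 1) * Nat.centralBinom t := by exact_mod_cast this
      have ht : (0 : ℝ) < (t : ℝ) + 1 := by positivity
      rw [pow_succ]
      field_simp
      nlinarith [h2]
    rw [hrec, mul_pow]
    have ht : (0 : ℝ) ≤ (t : ℝ) := by positivity
    have h1 : (q t 0) ^ 2 * ((2 * t + 1) / (2 * t + 2)) ^ 2 ≤
        1 / (2 * t + 1) * ((2 * t + 1) / (2 * t + 2)) ^ 2 := by
      apply mul_le_mul_of_nonneg_right ih (by positivity)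
    refine le_trans h1 ?_
    rw [div_pow, div_mul_div_comm, one_mul, div_le_div_iff₀ (by positivity) (by positivity)]
    push_cast
    nlinarith

lemma q_sum : ∀ n : ℕ, ∑ t ∈ Finset.range (n + 1), (q t 0) ^ 4 ≤ 5 / 4 - 1 / (4 * (n + 1))
  | 0 => by simp [q]; norm_num
  | n + 1 => by
    rw [Finset.sum_range_succ]
    have ih := q_sum n
    have h := q_zero_sq (n + 1)
    have h4 : (q (n + 1) 0) ^ 4 ≤ (1 / (2 * ((n + 1 : ℕ) : ℝ) + 1)) ^ 2 := by
      have : (q (n + 1) 0) ^ 4 = ((q (n + 1) 0) ^ 2) ^ 2 := by ring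
      rw [this]
      exact pow_le_pow_left₀ (by positivity) h 2
    have h5 : (1 / (2 * ((n + 1 : ℕ) : ℝ) + 1)) ^ 2 ≤
        1 / (4 * ((n : ℝ) + 1)) - 1 / (4 * (((n + 1 : ℕ) : ℝ) + 1)) := by
      push_cast
      rw [div_sub_div _ _ (by positivity) (by positivity), div_pow, one_pow,
        div_le_div_iff₀ (by positivity) (by positivity)]
      have hn : (0 : ℝ) ≤ n := by positivity
      nlinarith
    linarith

/-- product form -/
noncomputable def H (t : ℕ) (z : V) : ℝ := ∏ i : Fin 4, q t (z (xi i))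

lemma H_nonneg (t : ℕ) (z : V) : 0 ≤ H t z := Finset.prod_nonneg (fun _ _ => q_nonneg _ _)

lemma H_zero_zero : H 0 0 = 1 := by simp [H, q]

lemma H_at_zero (t : ℕ) : H t 0 = (q t 0) ^ 4 := by simp [H]

lemma sum_bits (g : Fin 4 → Bool → Bool → ℝ) :
    ∑ a : Fin 4 → Bool, ∑ a' : Fin 4 → Bool, ∏ i, g i (a i) (a' i) =
      ∏ i, ∑ ε : Bool, ∑ ε' : Bool, g i ε ε' := by
  have h1 : ∀ a : Fin 4 → Bool, ∑ a' : Fin 4 → Bool, ∏ i, g i (a i) (a' i) =
      ∏ i, ∑ ε' : Bool, g i (a i) ε' := by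
    intro a
    rw [Finset.prod_univ_sum, Fintype.piFinset_univ]
  simp_rw [h1]
  rw [Finset.prod_univ_sum, Fintype.piFinset_univ]

lemma H_rec {m : ℕ} (t : ℕ) (z : V) :
    ∑ ξ : Step m, ∑ ξ' : Step m, H t (z + vec ξ - vec ξ') =
      (Fintype.card (Step m) : ℝ) ^ 2 * H (t + 1) z := by
  have h1 : ∀ ξ ξ' : Step m, H t (z + vec ξ - vec ξ') =
      ∏ i : Fin 4, q t (z (xi i) + bit (ξ.1 i) - bit (ξ'.1 i)) := by
    intro ξ ξ'
    simp [H]
  simp_rw [h1]
  rw [Fintype.sum_prod_type]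
  simp_rw [Fintype.sum_prod_type]
  simp only [Finset.sum_const, Finset.card_univ, Fintype.card_fin]
  have h2 := sum_bits (fun i ε ε' => q t (z (xi i) + bit ε - bit ε'))
  have h3 : ∀ i : Fin 4, ∑ ε : Bool, ∑ ε' : Bool, q t (z (xi i) + bit ε - bit ε') =
      4 * q (t + 1) (z (xi i)) := by
    intro i
    simp only [Fintype.sum_bool, bit, if_true, q]
    have e1 : z (xi i) + 1 - 1 = z (xi i) := by ring
    have e2 : z (xi i) + 0 - 0 = z (xi i) := by ring
    have e3 : z (xi i) + 0 - 1 = z (xi i) - 1 := by ring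
    have e4 : z (xi i) + 1 - 0 = z (xi i) + 1 := by ring
    simp
    ring
  simp only [h3] at h2
  simp only [nsmul_eq_mul, ← Finset.mul_sum]
  rw [h2, Finset.prod_mul_distrib]
  simp only [H, Fintype.card_prod, Fintype.card_fun, Fintype.card_bool, Fintype.card_fin,
    Finset.prod_const, Finset.card_univ]
  push_cast
  ring

/-- position after `j` steps -/
def pos {m n : ℕ} (γ : Fin n → Step m) (j : ℕ) : V :=
  ∑ i : Fin n, if i.val < j then vec (γ i) else 0

@[simp] lemma pos_zero {m n : ℕ} (γ : Fin n → Step m) : pos γ 0 = 0 := by simp [pos]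

lemma pos_succ {m n : ℕ} (γ : Fin n → Step m) (j : Fin n) :
    pos γ (j.val + 1) = pos γ j.val + vec (γ j) := by
  unfold pos
  have : vec (γ j) = ∑ i : Fin n, if i = j then vec (γ i) else 0 := by simp
  rw [this, ← Finset.sum_add_distrib]
  apply Finset.sum_congr rfl
  intro i _
  by_cases h1 : i = j
  · subst h1; simp
  · have : i.val ≠ j.val := fun h => h1 (Fin.ext h)
    by_cases h2 : i.val < j.val
    · simp [h2, h1, Nat.lt_succ_of_lt h2]
    · have : ¬ i.val < j.val + 1 := by omega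
      simp [h2, h1, this]

lemma pos_cons {m n : ℕ} (ξ : Step m) (γ : Fin n → Step m) (j : ℕ) :
    pos (Fin.cons ξ γ : Fin (n + 1) → Step m) (j + 1) = vec ξ + pos γ j := by
  unfold pos
  rw [Fin.sum_univ_succ]
  simp

/-- number of shared edges of two paths with displacement `z` -/
noncomputable def ov {m n : ℕ} (z : V) (γ γ' : Fin n → Step m) : ℕ :=
  (Finset.univ.filter (fun j : Fin n => z + pos γ j = pos γ' j ∧ γ j = γ' j)).card

lemma ov_cons {m n : ℕ} (z : V) (ξ ξ' : Step m) (γ γ' : Fin n → Step m) :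
    ov z (Fin.cons ξ γ : Fin (n + 1) → Step m) (Fin.cons ξ' γ') =
      (if z = 0 ∧ ξ = ξ' then 1 else 0) + ov (z + vec ξ - vec ξ') γ γ' := by
  unfold ov
  rw [Finset.card_filter, Finset.card_filter, Fin.sum_univ_succ]
  congr 1
  · simp
  · apply Finset.sum_congr rfl
    intro j _
    have h : (z + pos (Fin.cons ξ γ : Fin (n + 1) → Step m) (j.succ : Fin (n + 1)) =
        pos (Fin.cons ξ' γ' : Fin (n + 1) → Step m) (j.succ : Fin (n + 1))) ↔
        (z + vec ξ - vec ξ' + pos γ j = pos γ' j) := by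
      rw [Fin.val_succ, pos_cons, pos_cons]
      constructor
      · intro h
        have : z + vec ξ - vec ξ' + pos γ j = (z + (vec ξ + pos γ j)) - vec ξ' := by abel
        rw [this, h]; abel
      · intro h
        rw [← h]; abel
    simp only [h, Fin.cons_succ]

/-- the pair weights -/
noncomputable def W (m : ℕ) (ρ : ℝ) (n : ℕ) (z : V) : ℝ :=
  ∑ γ : Fin n → Step m, ∑ γ' : Fin n → Step m, ρ ^ (ov z γ γ')

lemma W_zero (m : ℕ) (ρ : ℝ) (z : V) : W m ρ 0 z = 1 := by
  simp [W, ov]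

lemma sum_cons {m n : ℕ} (f : (Fin (n + 1) → Step m) → ℝ) :
    ∑ γ : Fin (n + 1) → Step m, f γ =
      ∑ ξ : Step m, ∑ γ : Fin n → Step m, f (Fin.cons ξ γ) := by
  rw [← Fintype.sum_prod_type']
  exact ((Fin.consEquiv (fun _ : Fin (n + 1) => Step m)).sum_comp f).symm

lemma W_succ (m : ℕ) (ρ : ℝ) (n : ℕ) (z : V) :
    W m ρ (n + 1) z = ∑ ξ : Step m, ∑ ξ' : Step m,
      (if z = 0 ∧ ξ = ξ' then ρ else 1) * W m ρ n (z + vec ξ - vec ξ') := by
  unfold W
  rw [sum_cons]
  apply Finset.sum_congr rfl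
  intro ξ _
  simp_rw [sum_cons]
  rw [Finset.sum_comm]
  apply Finset.sum_congr rfl
  intro ξ' _
  rw [Finset.mul_sum]
  apply Finset.sum_congr rfl
  intro γ _
  rw [Finset.mul_sum]
  apply Finset.sum_congr rfl
  intro γ' _
  rw [ov_cons, pow_add]
  congr 1
  split_ifs <;> simp

lemma H_sum_zero (n : ℕ) : ∑ t ∈ Finset.range n, H t 0 ≤ 5 / 4 := by
  cases n with
  | zero => norm_num
  | succ n =>
    simp_rw [H_at_zero]
    refine le_trans (q_sum n) ?_
    have : (0 : ℝ) ≤ 1 / (4 * (n + 1)) := by positivity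
    linarith

/-- main combinatorial bound -/
lemma W_bound (m : ℕ) (hm : 0 < m) (ρ κ : ℝ) (hρ : 1 ≤ ρ) (hκ : 0 ≤ κ)
    (h : (ρ - 1) * (1 + κ * (5 / 4)) ≤ (Fintype.card (Step m) : ℝ) * κ) :
    ∀ (n : ℕ) (z : V), W m ρ n z ≤ (Fintype.card (Step m) : ℝ) ^ (2 * n) *
      (1 + κ * ∑ t ∈ Finset.range n, H t z)
  | 0, z => by simp [W_zero]
  | n + 1, z => by
    set c : ℝ := (Fintype.card (Step m) : ℝ) with hc
    have hc0 : 0 ≤ c := by positivity
    have ih := W_bound m hm ρ κ hρ hκ h n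
    rw [W_succ]
    have h1 : ∀ ξ ξ' : Step m, (if z = 0 ∧ ξ = ξ' then ρ else 1) * W m ρ n (z + vec ξ - vec ξ') ≤
        c ^ (2 * n) * (1 + κ * ∑ t ∈ Finset.range n, H t (z + vec ξ - vec ξ')) +
        (if ξ = ξ' then (if z = 0 then (ρ - 1) * (c ^ (2 * n) * (1 + κ * (5 / 4))) else 0)
          else 0) := by
      intro ξ ξ'
      by_cases hz : z = 0
      · by_cases hξ : ξ = ξ'
        · subst hξ
          subst hz
          have e : (0 : V) + vec ξ - vec ξ = 0 := by abel
          simp only [and_self, if_true, e]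
          have i1 := ih 0
          have i2 : W m ρ n 0 ≤ c ^ (2 * n) * (1 + κ * (5 / 4)) := by
            refine le_trans i1 ?_
            apply mul_le_mul_of_nonneg_left _ (by positivity)
            have := mul_le_mul_of_nonneg_left (H_sum_zero n) hκ
            linarith
          have i3 : (ρ - 1) * W m ρ n 0 ≤ (ρ - 1) * (c ^ (2 * n) * (1 + κ * (5 / 4))) :=
            mul_le_mul_of_nonneg_left i2 (by linarith)
          linarith
        · simp only [hz, hξ, and_false, if_false, one_mul, add_zero]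
          have := ih (z + vec ξ - vec ξ')
          rw [hz] at this
          exact this
      · simp only [hz, false_and, if_false, one_mul, ite_self, add_zero]
        exact ih _
    refine le_trans (Finset.sum_le_sum (fun ξ _ => Finset.sum_le_sum (fun ξ' _ => h1 ξ ξ'))) ?_
    simp_rw [Finset.sum_add_distrib]
    have h2 : ∑ ξ : Step m, ∑ ξ' : Step m,
        c ^ (2 * n) * (1 + κ * ∑ t ∈ Finset.range n, H t (z + vec ξ - vec ξ')) =
        c ^ (2 * (n + 1)) * (1 + κ * ∑ t ∈ Finset.range n, H (t + 1) z) := by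
      have : ∑ ξ : Step m, ∑ ξ' : Step m, ∑ t ∈ Finset.range n, H t (z + vec ξ - vec ξ') =
          c ^ 2 * ∑ t ∈ Finset.range n, H (t + 1) z := by
        have e1 : ∀ ξ : Step m, ∑ ξ' : Step m, ∑ t ∈ Finset.range n, H t (z + vec ξ - vec ξ') =
            ∑ t ∈ Finset.range n, ∑ ξ' : Step m, H t (z + vec ξ - vec ξ') :=
          fun ξ => Finset.sum_comm
        simp_rw [e1]
        rw [Finset.sum_comm, Finset.mul_sum]
        apply Finset.sum_congr rfl
        intro t _
        exact H_rec t z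
      simp only [← Finset.mul_sum, Finset.sum_add_distrib, this]
      simp only [Finset.sum_const, Finset.card_univ, nsmul_eq_mul, mul_one, ← hc]
      ring
    rw [h2]
    have h3 : ∑ ξ : Step m, ∑ ξ' : Step m,
        (if ξ = ξ' then (if z = 0 then (ρ - 1) * (c ^ (2 * n) * (1 + κ * (5 / 4))) else 0)
          else 0) ≤ c ^ (2 * (n + 1)) * (κ * H 0 z) := by
      simp only [Finset.sum_ite_eq, Finset.mem_univ, if_true, Finset.sum_const, Finset.card_univ,
        nsmul_eq_mul, ← hc]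
      by_cases hz : z = 0
      · subst hz
        rw [if_pos rfl, H_zero_zero]
        have : c * ((ρ - 1) * (c ^ (2 * n) * (1 + κ * (5 / 4)))) =
          c ^ (2 * n) * (c * ((ρ - 1) * (1 + κ * (5 / 4)))) := by ring
        rw [this]
        have e : c ^ (2 * (n + 1)) * (κ * 1) = c ^ (2 * n) * (c * (c * κ)) := by ring
        rw [e]
        exact mul_le_mul_of_nonneg_left (mul_le_mul_of_nonneg_left h hc0) (by positivity)
      · rw [if_neg hz, mul_zero]
        have := H_nonneg 0 z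
        positivity
    rw [Finset.sum_range_succ' _ n]
    calc _ ≤ c ^ (2 * (n + 1)) * (1 + κ * ∑ t ∈ Finset.range n, H (t + 1) z) +
          c ^ (2 * (n + 1)) * (κ * H 0 z) := by linarith
      _ = _ := by ring

end Pool.Agent.Lib.MP_d2b88b_pr
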