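import Mathlib
import Pool.Agent.Lib.MP_d2b88b_pr.Walks
import Pool.Agent.Lib.MP_d2b88b_pr.Moment

set_option autoImplicit false
set_option linter.deprecated false

open MeasureTheory

namespace Pool.Agent.Lib.MP_d2b88b_pr

/-- the first cone -/
def U (m : ℕ) : Set V :=
  {v | 0 ≤ v 0 ∧ (∀ i : Fin 4, 0 ≤ v (xi i) ∧ v (xi i) ≤ v 0) ∧ 0 ≤ v yi ∧ v yi ≤ m * v 0}

/-- point reflection exchanging the cones -/
def R (v : V) : V := fun j => (if j = 0 then -1 else 0) - v j

lemma R_R (v : V) : R (R v) = v := by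
  funext j; simp [R]

lemma R_inj : Function.Injective R := fun v w h => by
  rw [← R_R v, h, R_R]

/-- unit directions -/
abbrev Dir := Fin 6 × Bool

/-- displacement of a direction -/
def dir (δ : Dir) : V := Pi.single δ.1 (if δ.2 then 1 else -1)

lemma dir_ne_zero (δ : Dir) : dir δ ≠ 0 := by
  intro h
  have := congrFun h δ.1
  simp only [dir, Pi.single_eq_same, Pi.zero_apply] at this
  split_ifs at this <;> omega

lemma dir_neg (δ : Dir) : dir (δ.1, !δ.2) = - dir δ := by
  rw [dir, dir, ← Pi.single_neg]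
  cases δ.2 <;> simp

/-- nearest neighbours -/
def nn (v w : V) : Prop := ∃ δ : Dir, w = v + dir δ

lemma nn_symm {v w : V} (h : nn v w) : nn w v := by
  obtain ⟨δ, hδ⟩ := h
  exact ⟨(δ.1, !δ.2), by rw [dir_neg, hδ]; abel⟩

/-- long edges of the first cone -/
def long (m : ℕ) (v w : V) : Prop := v ∈ U m ∧ w ∈ U m ∧ ∃ ξ : Step m, w = v + vec ξ

lemma long_time {m : ℕ} {v w : V} (h : long m v w) : w 0 = v 0 + 1 := by
  obtain ⟨_, _, ξ, hξ⟩ := h
  rw [hξ]; simp

/-- the graph -/
def Gr (m : ℕ) : SimpleGraph V where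
  Adj v w := nn v w ∨ (long m v w ∨ long m w v) ∨ (long m (R v) (R w) ∨ long m (R w) (R v))
  symm := ⟨by
    intro v w h
    rcases h with h | h | h
    · exact Or.inl (nn_symm h)
    · exact Or.inr (Or.inl h.symm)
    · exact Or.inr (Or.inr h.symm)⟩
  loopless := ⟨by
    intro v h
    rcases h with h | (h | h) | (h | h)
    · obtain ⟨δ, hδ⟩ := h
      exact dir_ne_zero δ (by simpa using hδ)
    all_goals
      have := long_time h
      omega⟩

/-- the l1 norm -/
def l1 (z : V) : ℤ := ∑ i, |z i|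

lemma l1_nonneg (z : V) : 0 ≤ l1 z := Finset.sum_nonneg (fun _ _ => abs_nonneg _)

lemma l1_neg (z : V) : l1 (-z) = l1 z := by simp [l1]

lemma l1_add (z w : V) : l1 (z + w) ≤ l1 z + l1 w := by
  unfold l1
  rw [← Finset.sum_add_distrib]
  exact Finset.sum_le_sum (fun i _ => abs_add_le _ _)

lemma l1_zero : l1 0 = 0 := by simp [l1]

lemma l1_dir (δ : Dir) : l1 (dir δ) = 1 := by
  unfold l1 dir
  rw [Finset.sum_eq_single δ.1]
  · rw [Pi.single_eq_same]; split_ifs <;> simp
  · intro j _ hj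
    rw [Pi.single_eq_of_ne hj, abs_zero]
  · intro h; exact absurd (Finset.mem_univ _) h

lemma sum_coord (f : Fin 6 → ℤ) : ∑ j, f j = f 0 + (∑ i : Fin 4, f (xi i)) + f yi := by
  rw [Fin.sum_univ_succ, Fin.sum_univ_castSucc]
  unfold xi yi
  ring

lemma l1_vec {m : ℕ} (ξ : Step m) : l1 (vec ξ) ≤ m + 5 := by
  unfold l1
  rw [sum_coord]
  simp only [vec_zero, vec_xi, vec_yi, abs_one]
  have h1 : ∑ i : Fin 4, |bit (ξ.1 i)| ≤ ∑ _i : Fin 4, (1 : ℤ) := by
    apply Finset.sum_le_sum
    intro i _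
    cases ξ.1 i <;> simp [bit]
  have h2 : |(ξ.2 : ℤ)| ≤ m := by
    rw [Nat.abs_cast]
    exact_mod_cast ξ.2.2.le
  simp only [Finset.sum_const, Finset.card_univ, Fintype.card_fin, nsmul_eq_mul] at h1
  push_cast at h1
  omega

lemma l1_R (v w : V) : l1 (R v - R w) = l1 (v - w) := by
  rw [← l1_neg]
  congr 1
  funext j
  simp [R]

lemma adj_l1 {m : ℕ} {v w : V} (h : (Gr m).Adj v w) : l1 (v - w) ≤ m + 5 := by
  have key : ∀ v w : V, long m v w → l1 (v - w) ≤ m + 5 := by
    intro v w h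
    obtain ⟨_, _, ξ, hξ⟩ := h
    rw [hξ, ← l1_neg]
    have : -(v - (v + vec ξ)) = vec ξ := by abel
    rw [this]; exact l1_vec ξ
  have hs : ∀ v w : V, l1 (v - w) = l1 (w - v) := by
    intro v w; rw [← l1_neg]; congr 1; abel
  rcases h with h | (h | h) | (h | h)
  · obtain ⟨δ, hδ⟩ := h
    rw [hδ, ← l1_neg]
    have : -(v - (v + dir δ)) = dir δ := by abel
    rw [this, l1_dir]
    omega
  · exact key v w h
  · rw [hs]; exact key w v h
  · rw [← l1_R]; exact key _ _ h
  · rw [← l1_R, hs]; exact key _ _ h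

lemma l1_le_walk {m : ℕ} {x y : V} (p : (Gr m).Walk x y) : l1 (x - y) ≤ (m + 5) * p.length := by
  induction p with
  | nil => simp [l1_zero]
  | @cons u v w h p ih =>
    have h1 := adj_l1 h
    have h2 := l1_add (u - v) (v - w)
    have : u - v + (v - w) = u - w := by abel
    rw [this] at h2
    rw [SimpleGraph.Walk.length_cons]
    push_cast
    linarith

lemma exists_walk (m : ℕ) : ∀ (k : ℕ) (x y : V), l1 (x - y) = k →
    ∃ p : (Gr m).Walk x y, p.length = k
  | 0, x, y, h => by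
    have : x = y := by
      unfold l1 at h
      rw [Nat.cast_zero, Finset.sum_eq_zero_iff_of_nonneg (fun _ _ => abs_nonneg _)] at h
      funext j
      have := h j (Finset.mem_univ _)
      rw [abs_eq_zero, Pi.sub_apply, sub_eq_zero] at this
      exact this
    subst this
    exact ⟨SimpleGraph.Walk.nil, rfl⟩
  | k + 1, x, y, h => by
    have hne : x ≠ y := by
      rintro rfl
      rw [sub_self, l1_zero] at h
      push_cast at h
      omega
    obtain ⟨j, hj⟩ := Function.ne_iff.mp hne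
    let δ : Dir := (j, decide (x j < y j))
    have hk : l1 (x + dir δ - y) = k := by
      have e : ∀ i, |(x + dir δ - y) i| = |(x - y) i| - (if i = j then 1 else 0) := by
        intro i
        by_cases hi : i = j
        · subst hi
          simp only [Pi.sub_apply, Pi.add_apply, dir, δ, Pi.single_eq_same, if_true]
          by_cases hlt : x i < y i
          · simp only [hlt, decide_true, if_true]
            rw [abs_of_nonpos (by omega), abs_of_neg (by omega)]
            ring
          · have hgt : y i < x i := lt_of_le_of_ne (not_lt.mp hlt) (Ne.symm hj)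
            simp only [hlt, decide_false]
            rw [if_neg (by simp), abs_of_nonneg (by omega), abs_of_pos (by omega)]
            ring
        · simp only [Pi.sub_apply, Pi.add_apply, dir, δ, if_neg hi, sub_zero]
          rw [Pi.single_eq_of_ne hi, add_zero]
      unfold l1 at h ⊢
      rw [Finset.sum_congr rfl (fun i _ => e i), Finset.sum_sub_distrib, h]
      simp
    obtain ⟨p, hp⟩ := exists_walk m k (x + dir δ) y hk
    have hadj : (Gr m).Adj x (x + dir δ) := Or.inl ⟨δ, rfl⟩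
    exact ⟨SimpleGraph.Walk.cons hadj p, by rw [SimpleGraph.Walk.length_cons, hp]⟩

lemma gr_connected (m : ℕ) : (Gr m).Connected := by
  have : Nonempty V := ⟨0⟩
  refine ⟨fun x y => ?_⟩
  obtain ⟨p, _⟩ := exists_walk m (l1 (x - y)).toNat x y (by rw [Int.toNat_of_nonneg (l1_nonneg _)])
  exact ⟨p⟩

lemma gr_qi (m : ℕ) : ∃ (f : V → (Fin 6 → ℤ)) (C K : ℕ),
    (∀ x y : V,
      (∑ i, |f x i - f y i|) ≤ (C : ℤ) * ((Gr m).dist x y : ℤ) + (K : ℤ) ∧
      ((Gr m).dist x y : ℤ) ≤ (C : ℤ) * (∑ i, |f x i - f y i|) + (K : ℤ)) ∧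
    ∀ z : Fin 6 → ℤ, ∃ x : V, (∑ i, |z i - f x i|) ≤ (K : ℤ) := by
  refine ⟨id, m + 5, 0, fun x y => ⟨?_, ?_⟩, fun z => ⟨z, by simp⟩⟩
  · obtain ⟨p, hp⟩ := (gr_connected m).exists_walk_length_eq_dist x y
    have := l1_le_walk p
    rw [hp] at this
    unfold l1 at this
    simpa using this
  · obtain ⟨p, hp⟩ := exists_walk m (l1 (x - y)).toNat x y
      (by rw [Int.toNat_of_nonneg (l1_nonneg _)])
    have h1 : (Gr m).dist x y ≤ (l1 (x - y)).toNat := hp ▸ SimpleGraph.dist_le p
    have h2 : ((Gr m).dist x y : ℤ) ≤ l1 (x - y) := by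
      have := l1_nonneg (x - y)
      omega
    have h3 : l1 (x - y) = ∑ i, |id x i - id y i| := by simp [l1]
    rw [← h3]
    have h4 := l1_nonneg (x - y)
    push_cast
    nlinarith

lemma gr_degree (m : ℕ) : ∃ D : ℕ, ∀ v : V, ((Gr m).neighborSet v).encard ≤ (D : ℕ∞) := by
  refine ⟨(2 * (m + 5) + 1) ^ 6, fun v => ?_⟩
  have hsub : (Gr m).neighborSet v ⊆
      ((Fintype.piFinset (fun j : Fin 6 => Finset.Icc (v j - (m + 5)) (v j + (m + 5))) :
        Finset V) : Set V) := by
    intro w hw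
    have h1 := adj_l1 hw
    rw [Finset.mem_coe, Fintype.mem_piFinset]
    intro j
    have h2 : |(v - w) j| ≤ l1 (v - w) :=
      Finset.single_le_sum (f := fun j => |(v - w) j|) (fun _ _ => abs_nonneg _) (Finset.mem_univ j)
    have h3 := le_trans h2 h1
    rw [Pi.sub_apply, abs_le] at h3
    rw [Finset.mem_Icc]
    constructor <;> omega
  refine le_trans (Set.encard_le_encard hsub) ?_
  rw [Set.encard_coe_eq_coe_finsetCard, Fintype.card_piFinset]
  simp only [Int.card_Icc]
  have : ∀ j : Fin 6, (v j + ((m : ℤ) + 5) + 1 - (v j - ((m : ℤ) + 5))).toNat = 2 * (m + 5) + 1 := by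
    intro j; omega
  simp only [this, Finset.prod_const, Finset.card_univ, Fintype.card_fin]
  exact le_refl _

end Pool.Agent.Lib.MP_d2b88b_pr
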