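import Mathlib
import Pool.Agent.Lib.MP_d2b88b_pr.Graph

set_option autoImplicit false
set_option linter.deprecated false

open MeasureTheory

namespace Pool.Agent.Lib.MP_d2b88b_pr

/-- the graph of open edges -/
abbrev Op {m : ℕ} (ω : (Gr m).edgeSet → Bool) : SimpleGraph V :=
  SimpleGraph.fromEdgeSet {e : Sym2 V | ∃ h : e ∈ (Gr m).edgeSet, ω ⟨e, h⟩ = true}

lemma op_adj {m : ℕ} (ω : (Gr m).edgeSet → Bool) {v w : V} :
    (Op ω).Adj v w ↔ ∃ h : (Gr m).Adj v w, ω ⟨s(v, w), h⟩ = true := by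
  rw [SimpleGraph.fromEdgeSet_adj]
  constructor
  · rintro ⟨⟨h, h'⟩, _⟩
    exact ⟨h, h'⟩
  · rintro ⟨h, h'⟩
    exact ⟨⟨h, h'⟩, h.ne⟩

lemma pos_time {m n : ℕ} (γ : Fin n → Step m) : ∀ j : ℕ, j ≤ n → pos γ j 0 = j
  | 0, _ => by simp
  | j + 1, h => by
    have e := pos_succ γ ⟨j, h⟩
    simp only at e
    rw [e, Pi.add_apply, pos_time γ j (by omega), vec_zero]
    push_cast; ring

lemma U_add {m : ℕ} {v : V} (hv : v ∈ U m) (ξ : Step m) : v + vec ξ ∈ U m := by
  obtain ⟨h0, hx, hy1, hy2⟩ := hv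
  refine ⟨?_, fun i => ?_, ?_, ?_⟩
  · simp only [Pi.add_apply, vec_zero]; omega
  · have hb : 0 ≤ bit (ξ.1 i) ∧ bit (ξ.1 i) ≤ 1 := by cases ξ.1 i <;> simp [bit]
    obtain ⟨h1, h2⟩ := hx i
    simp only [Pi.add_apply, vec_zero, vec_xi]
    constructor <;> omega
  · simp only [Pi.add_apply, vec_yi]; omega
  · have : ((ξ.2 : ℕ) : ℤ) ≤ m := by exact_mod_cast ξ.2.2.le
    simp only [Pi.add_apply, vec_yi, vec_zero]
    nlinarith

lemma zero_mem_U (m : ℕ) : (0 : V) ∈ U m := by
  refine ⟨?_, fun i => ?_, ?_, ?_⟩ <;> simp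

lemma pos_mem_U {m n : ℕ} (γ : Fin n → Step m) : ∀ j : ℕ, j ≤ n → pos γ j ∈ U m
  | 0, _ => by rw [pos_zero]; exact zero_mem_U m
  | j + 1, h => by
    have e := pos_succ γ ⟨j, h⟩
    simp only at e
    rw [e]
    exact U_add (pos_mem_U γ j (by omega)) _

lemma long_pos {m n : ℕ} (γ : Fin n → Step m) (j : Fin n) :
    long m (pos γ j) (pos γ (j + 1)) := by
  refine ⟨pos_mem_U γ j j.2.le, pos_mem_U γ (j + 1) j.2, γ j, pos_succ γ j⟩

section paths

variable {m : ℕ} (φ : V → V) (hφ : Function.Injective φ)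
  (hadj : ∀ v w : V, long m v w → (Gr m).Adj (φ v) (φ w))

/-- edges of a path -/
def edg {n : ℕ} (γ : Fin n → Step m) (j : Fin n) : (Gr m).edgeSet :=
  ⟨s(φ (pos γ j), φ (pos γ (j + 1))), hadj _ _ (long_pos γ j)⟩

include hφ in
lemma edg_eq {n : ℕ} {γ γ' : Fin n → Step m} {i j : Fin n}
    (h : edg φ hadj γ i = edg φ hadj γ' j) : i = j ∧ pos γ i = pos γ' i ∧ γ i = γ' i := by
  have h1 : s(φ (pos γ i), φ (pos γ (i + 1))) = s(φ (pos γ' j), φ (pos γ' (j + 1))) :=
    congrArg Subtype.val h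
  have t1 := pos_time γ i i.2.le
  have t2 := pos_time γ (i + 1) i.2
  have t3 := pos_time γ' j j.2.le
  have t4 := pos_time γ' (j + 1) j.2
  rw [Sym2.eq_iff] at h1
  rcases h1 with ⟨h1, h2⟩ | ⟨h1, h2⟩
  · have e1 := hφ h1
    have e2 := hφ h2
    have hij : i = j := by
      rw [e1, t3] at t1
      ext; omega
    subst hij
    refine ⟨rfl, e1, ?_⟩
    have p1 := pos_succ γ i
    have p2 := pos_succ γ' i
    rw [e2, p2, e1] at p1
    exact (vec_inj (add_left_cancel p1)).symm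
  · have e1 := hφ h1
    have e2 := hφ h2
    rw [e1, t4] at t1
    rw [e2, t3] at t2
    push_cast at t1 t2
    omega

open Classical in
/-- edge set of a path -/
noncomputable def F {n : ℕ} (γ : Fin n → Step m) : Finset (Gr m).edgeSet :=
  Finset.univ.image (edg φ hadj γ)

lemma F_card {n : ℕ} (γ : Fin n → Step m) : (F φ hadj γ).card ≤ n := by
  classical
  unfold F
  refine le_trans Finset.card_image_le ?_
  simp

open Classical in
include hφ in
lemma F_union {n : ℕ} (γ γ' : Fin n → Step m) :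
    2 * n ≤ (F φ hadj γ ∪ F φ hadj γ').card + ov 0 γ γ' := by
  let A : Finset (Fin n) :=
    Finset.univ.filter (fun j : Fin n => ¬ ((0 : V) + pos γ j = pos γ' j ∧ γ j = γ' j))
  have hA : ov 0 γ γ' + A.card = n := by
    unfold ov A
    rw [Finset.card_filter_add_card_filter_not]
    simp
  have h1 : (Finset.univ.image (edg φ hadj γ)).card = n := by
    rw [Finset.card_image_of_injective]
    · simp
    · intro i j h
      exact (edg_eq φ hφ hadj h).1
  have h2 : (A.image (edg φ hadj γ')).card = A.card := by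
    rw [Finset.card_image_of_injective]
    intro i j h
    exact (edg_eq φ hφ hadj h).1
  have h3 : Disjoint (Finset.univ.image (edg φ hadj γ)) (A.image (edg φ hadj γ')) := by
    rw [Finset.disjoint_left]
    intro e he he'
    obtain ⟨i, _, hi⟩ := Finset.mem_image.mp he
    obtain ⟨j, hj, hj'⟩ := Finset.mem_image.mp he'
    rw [← hj'] at hi
    obtain ⟨e1, e2, e3⟩ := edg_eq φ hφ hadj hi
    subst e1
    have := (Finset.mem_filter.mp hj).2
    exact this ⟨by rw [zero_add]; exact e2, e3⟩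
  have h4 : Finset.univ.image (edg φ hadj γ) ∪ A.image (edg φ hadj γ') ⊆
      F φ hadj γ ∪ F φ hadj γ' := by
    apply Finset.union_subset_union (by unfold F; exact subset_rfl)
    unfold F
    exact Finset.image_subset_image (Finset.subset_univ _)
  have h5 := Finset.card_le_card h4
  rw [Finset.card_union_of_disjoint h3, h1, h2] at h5
  omega

open Classical in
include hφ in
lemma path_bound (N : ℕ) (hN : 0 < N) (hm : m = N) (p : NNReal) (hp : p ≤ 1)
    (hpN : p = (N : NNReal)⁻¹) (n : ℕ) :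
    (bern (Gr m).edgeSet p hp).real
      {ω | ∀ γ : Fin n → Step m, ¬ ∀ e ∈ F φ hadj γ, ω e = true} ≤ 1 / 8 := by
  subst hm
  have hNr : (0 : ℝ) < m := by exact_mod_cast hN
  have hp0 : 0 < p := by rw [hpN]; positivity
  have hpr : (p : ℝ) = (m : ℝ)⁻¹ := by rw [hpN]; simp
  have hcard : (Fintype.card (Step m) : ℝ) = 16 * m := by
    simp only [Fintype.card_prod, Fintype.card_fun, Fintype.card_bool, Fintype.card_fin]
    push_cast; norm_num
  have : Nonempty (Step m) := ⟨(fun _ => true, ⟨0, hN⟩)⟩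
  have hm1 : (1 : ℝ) ≤ m := by exact_mod_cast hN
  have key := second_moment p hp hp0 (Γ := Fin n → Step m) (F φ hadj) n
    (fun γ => F_card φ hadj γ) (1 + 1 / 10 * (5 / 4)) ?_
  · refine le_trans key ?_
    norm_num
  · have hW := W_bound m hN (m : ℝ) (1 / 10) hm1 (by norm_num) (by rw [hcard]; linarith) n 0
    have hs : ∀ γ γ' : Fin n → Step m, (p : ℝ) ^ (F φ hadj γ ∪ F φ hadj γ').card ≤
        (p : ℝ) ^ (2 * n) * (m : ℝ) ^ (ov 0 γ γ') := by
      intro γ γ'
      have h1 := F_union φ hφ hadj γ γ'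
      have hp1 : (p : ℝ) ≤ 1 := by exact_mod_cast hp
      have hpp : (0 : ℝ) ≤ p := by positivity
      have h2 : (p : ℝ) ^ ((F φ hadj γ ∪ F φ hadj γ').card + ov 0 γ γ') ≤ (p : ℝ) ^ (2 * n) :=
        pow_le_pow_of_le_one hpp hp1 h1
      have h3 := mul_le_mul_of_nonneg_right h2 (by positivity : (0 : ℝ) ≤ (m : ℝ) ^ (ov 0 γ γ'))
      refine le_trans (le_of_eq ?_) h3
      rw [pow_add, mul_assoc, ← mul_pow, hpr, inv_mul_cancel₀ hNr.ne', one_pow, mul_one]
    calc ∑ γ : Fin n → Step m, ∑ γ' : Fin n → Step m, (p : ℝ) ^ (F φ hadj γ ∪ F φ hadj γ').card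
        ≤ ∑ γ : Fin n → Step m, ∑ γ' : Fin n → Step m,
            (p : ℝ) ^ (2 * n) * (m : ℝ) ^ (ov 0 γ γ') :=
          Finset.sum_le_sum (fun γ _ => Finset.sum_le_sum (fun γ' _ => hs γ γ'))
      _ = (p : ℝ) ^ (2 * n) * W m m n 0 := by
          unfold W
          simp_rw [← Finset.mul_sum]
      _ ≤ (p : ℝ) ^ (2 * n) * ((Fintype.card (Step m) : ℝ) ^ (2 * n) *
            (1 + 1 / 10 * ∑ t ∈ Finset.range n, H t 0)) :=
          mul_le_mul_of_nonneg_left hW (by positivity)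
      _ ≤ (p : ℝ) ^ (2 * n) * ((Fintype.card (Step m) : ℝ) ^ (2 * n) *
            (1 + 1 / 10 * (5 / 4))) := by
          have := H_sum_zero n
          apply mul_le_mul_of_nonneg_left _ (by positivity)
          apply mul_le_mul_of_nonneg_left _ (by positivity)
          linarith
      _ = _ := by
          rw [Fintype.card_fun, Fintype.card_fin]
          push_cast
          ring

lemma F_open_iff {n : ℕ} (γ : Fin n → Step m) (ω : (Gr m).edgeSet → Bool) :
    (∀ e ∈ F φ hadj γ, ω e = true) ↔ ∀ j, ω (edg φ hadj γ j) = true := by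
  classical
  unfold F
  simp

lemma pos_castSucc {n : ℕ} (γ : Fin (n + 1) → Step m) (j : ℕ) (hj : j ≤ n) :
    pos (fun i : Fin n => γ i.castSucc) j = pos γ j := by
  unfold pos
  rw [Fin.sum_univ_castSucc]
  have : ¬ (Fin.last n).val < j := by simp; omega
  rw [if_neg this, add_zero]
  rfl

include hφ in
lemma path_bound_all (N : ℕ) (hN : 0 < N) (hm : m = N) (p : NNReal) (hp : p ≤ 1)
    (hpN : p = (N : NNReal)⁻¹) :
    (bern (Gr m).edgeSet p hp)
      {ω | ∃ n : ℕ, ∀ γ : Fin n → Step m, ¬ ∀ j, ω (edg φ hadj γ j) = true} ≤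
        ENNReal.ofReal (1 / 8) := by
  classical
  let S : ℕ → Set ((Gr m).edgeSet → Bool) :=
    fun n => {ω | ∀ γ : Fin n → Step m, ¬ ∀ j, ω (edg φ hadj γ j) = true}
  have hmono : Monotone S := by
    apply monotone_nat_of_le_succ
    intro n ω hω γ hγ
    apply hω (fun i => γ i.castSucc)
    intro j
    have := hγ j.castSucc
    rw [← this]
    congr 1
    unfold edg
    ext1
    simp only [Fin.val_castSucc]
    rw [pos_castSucc γ j j.2.le, pos_castSucc γ (j + 1) j.2]
  have hU : {ω | ∃ n : ℕ, ∀ γ : Fin n → Step m, ¬ ∀ j, ω (edg φ hadj γ j) = true} = ⋃ n, S n := by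
    ext ω; simp [S]
  rw [hU, hmono.measure_iUnion]
  apply iSup_le
  intro n
  have h1 := path_bound φ hφ hadj N hN hm p hp hpN n
  have h2 : {ω : (Gr m).edgeSet → Bool | ∀ γ : Fin n → Step m, ¬ ∀ e ∈ F φ hadj γ, ω e = true} =
      S n := by
    ext ω
    simp only [S, Set.mem_setOf_eq, F_open_iff]
  rw [h2] at h1
  rw [← ENNReal.ofReal_toReal (measure_ne_top (bern (Gr m).edgeSet p hp) (S n))]
  exact ENNReal.ofReal_le_ofReal h1

include hφ in
lemma infinite_cluster (ω : (Gr m).edgeSet → Bool)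
    (h : ∀ n : ℕ, ∃ γ : Fin n → Step m, ∀ j, ω (edg φ hadj γ j) = true) :
    ((Op ω).connectedComponentMk (φ 0)).supp.Infinite := by
  choose γ hγ using h
  have hreach : ∀ n : ℕ, ∀ j : ℕ, j ≤ n → (Op ω).Reachable (φ 0) (φ (pos (γ n) j)) := by
    intro n j
    induction j with
    | zero => intro _; rw [pos_zero]
    | succ j ih =>
      intro hj
      refine (ih (by omega)).trans ?_
      apply SimpleGraph.Adj.reachable
      rw [op_adj]
      have := hγ n ⟨j, hj⟩
      exact ⟨hadj _ _ (long_pos (γ n) ⟨j, hj⟩), this⟩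
  refine Set.infinite_of_injective_forall_mem (f := fun n : ℕ => φ (pos (γ n) n)) ?_ ?_
  · intro a b hab
    have := hφ hab
    have h1 := pos_time (γ a) a le_rfl
    have h2 := pos_time (γ b) b le_rfl
    rw [this, h2] at h1
    exact_mod_cast h1.symm
  · intro n
    rw [SimpleGraph.ConnectedComponent.mem_supp_iff, SimpleGraph.ConnectedComponent.eq]
    exact (hreach n n le_rfl).symm

end paths

end Pool.Agent.Lib.MP_d2b88b_pr
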