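import Mathlib
import Pool.Agent.Lib.MP_d2b88b_pr.Paths

set_option autoImplicit false
set_option linter.deprecated false

open MeasureTheory

namespace Pool.Agent.Lib.MP_d2b88b_pr

variable {m : ℕ}

/-- position after `j` unit steps -/
def posD {n : ℕ} (u : V) (δ : Fin n → Dir) (j : ℕ) : V :=
  u + ∑ i : Fin n, if i.val < j then dir (δ i) else 0

@[simp] lemma posD_zero {n : ℕ} (u : V) (δ : Fin n → Dir) : posD u δ 0 = u := by simp [posD]

lemma posD_succ {n : ℕ} (u : V) (δ : Fin n → Dir) (j : Fin n) :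
    posD u δ (j.val + 1) = posD u δ j.val + dir (δ j) := by
  unfold posD
  rw [add_assoc]
  congr 1
  have : dir (δ j) = ∑ i : Fin n, if i = j then dir (δ i) else 0 := by simp
  rw [this, ← Finset.sum_add_distrib]
  apply Finset.sum_congr rfl
  intro i _
  by_cases h1 : i = j
  · subst h1; simp
  · have : i.val ≠ j.val := fun h => h1 (Fin.ext h)
    by_cases h2 : i.val < j.val
    · simp [h2, h1, Nat.lt_succ_of_lt h2]
    · have : ¬ i.val < j.val + 1 := by omega
      simp [h2, h1, this]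

/-- edges of a unit path -/
def edgD {n : ℕ} (u : V) (δ : Fin n → Dir) (j : Fin n) : (Gr m).edgeSet :=
  ⟨s(posD u δ j, posD u δ (j + 1)), Or.inl ⟨δ j, posD_succ u δ j⟩⟩

/-- there is an open unit trail of length `n` from `u` -/
def K (m : ℕ) (u : V) (n : ℕ) : Set ((Gr m).edgeSet → Bool) :=
  {ω | ∃ δ : Fin n → Dir, Function.Injective (edgD (m := m) u δ) ∧ ∀ j, ω (edgD u δ j) = true}

lemma K_bound (p : NNReal) (hp : p ≤ 1) (u : V) (n : ℕ) :
    bern (Gr m).edgeSet p hp (K m u n) ≤ (12 : ENNReal) ^ n * (p : ENNReal) ^ n := by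
  classical
  have hU : K m u n = ⋃ δ : Fin n → Dir,
      {ω | Function.Injective (edgD (m := m) u δ) ∧ ∀ j, ω (edgD u δ j) = true} := by
    ext ω; simp [K]
  rw [hU]
  refine le_trans (measure_iUnion_fintype_le _ _) ?_
  have h1 : ∀ δ : Fin n → Dir, bern (Gr m).edgeSet p hp
      {ω | Function.Injective (edgD (m := m) u δ) ∧ ∀ j, ω (edgD u δ j) = true} ≤
        (p : ENNReal) ^ n := by
    intro δ
    by_cases hinj : Function.Injective (edgD (m := m) u δ)
    · have : {ω : (Gr m).edgeSet → Bool | Function.Injective (edgD (m := m) u δ) ∧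
          ∀ j, ω (edgD u δ j) = true} =
          {ω | ∀ e ∈ Finset.univ.image (edgD (m := m) u δ), ω e = true} := by
        ext ω
        simp [hinj]
      rw [this, bern_all_open, Finset.card_image_of_injective _ hinj]
      simp
    · have : {ω : (Gr m).edgeSet → Bool | Function.Injective (edgD (m := m) u δ) ∧
          ∀ j, ω (edgD u δ j) = true} = ∅ := by
        ext ω
        simp [hinj]
      rw [this, measure_empty]
      exact bot_le
  refine le_trans (Finset.sum_le_sum (fun δ _ => h1 δ)) ?_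
  rw [Finset.sum_const, Finset.card_univ]
  simp only [Fintype.card_fun, Fintype.card_prod, Fintype.card_bool, Fintype.card_fin,
    nsmul_eq_mul]
  push_cast
  norm_num

/-- open unit edges -/
def On (ω : (Gr m).edgeSet → Bool) : SimpleGraph V where
  Adj v w := (Op ω).Adj v w ∧ nn v w
  symm := ⟨fun _ _ h => ⟨h.1.symm, nn_symm h.2⟩⟩
  loopless := ⟨fun _ h => h.1.ne rfl⟩

lemma nn_time {v w : V} (h : nn v w) : v 0 ≤ w 0 + 1 := by
  obtain ⟨δ, hδ⟩ := h
  have h1 : |dir δ 0| ≤ l1 (dir δ) :=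
    Finset.single_le_sum (f := fun j => |dir δ j|) (fun _ _ => abs_nonneg _) (Finset.mem_univ 0)
  rw [l1_dir, abs_le] at h1
  rw [hδ, Pi.add_apply]
  omega

lemma walk_time {ω : (Gr m).edgeSet → Bool} {u v : V} (w : (On ω).Walk u v) :
    u 0 ≤ v 0 + w.length := by
  induction w with
  | nil => simp
  | @cons a b c h p ih =>
    have := nn_time h.2
    rw [SimpleGraph.Walk.length_cons]
    push_cast
    linarith

lemma mem_K_of_reach {ω : (Gr m).edgeSet → Bool} {u v : V} (hu : 0 ≤ u 0) (hv : v 0 < 0)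
    (h : (On ω).Reachable u v) : ω ∈ K m u ((u 0).toNat + 1) := by
  classical
  obtain ⟨w, hw⟩ := h.exists_isPath
  have hlen : (u 0).toNat + 1 ≤ w.length := by
    have := walk_time w
    omega
  set n := (u 0).toNat + 1 with hn
  have hadj : ∀ j : Fin n, (On ω).Adj (w.getVert j) (w.getVert (j + 1)) :=
    fun j => w.adj_getVert_succ (lt_of_lt_of_le j.2 hlen)
  choose δ hδ using fun j : Fin n => (hadj j).2
  have hpos : ∀ j : ℕ, j ≤ n → posD u δ j = w.getVert j := by
    intro j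
    induction j with
    | zero => intro _; simp
    | succ j ih =>
      intro hj
      have := posD_succ u δ ⟨j, hj⟩
      simp only at this
      rw [this, ih (by omega)]
      exact (hδ ⟨j, hj⟩).symm
  refine ⟨δ, ?_, ?_⟩
  · intro i j hij
    have h1 : s(posD u δ i, posD u δ (i + 1)) = s(posD u δ j, posD u δ (j + 1)) :=
      congrArg Subtype.val hij
    rw [hpos i i.2.le, hpos (i + 1) i.2, hpos j j.2.le, hpos (j + 1) j.2] at h1
    have hinj := hw.getVert_injOn
    have hi : (i : ℕ) ≤ w.length := le_trans i.2.le hlen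
    have hi' : (i : ℕ) + 1 ≤ w.length := le_trans i.2 hlen
    have hj : (j : ℕ) ≤ w.length := le_trans j.2.le hlen
    have hj' : (j : ℕ) + 1 ≤ w.length := le_trans j.2 hlen
    rw [Sym2.eq_iff] at h1
    rcases h1 with ⟨h1, _⟩ | ⟨h1, h2⟩
    · exact Fin.ext (hinj hi hj h1)
    · have e1 := hinj hi hj' h1
      have e2 := hinj hi' hj h2
      omega
  · intro j
    have h1 := (hadj j).1
    rw [op_adj] at h1
    obtain ⟨h2, h3⟩ := h1
    rw [← h3]
    congr 1
    unfold edgD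
    ext1
    simp only
    rw [hpos j j.2.le, hpos (j + 1) j.2]

/-- no crossing implies separation -/
lemma separated {ω : (Gr m).edgeSet → Bool}
    (h : ∀ u ∈ U m, ω ∉ K m u ((u 0).toNat + 1)) : ¬ (Op ω).Reachable 0 (R 0) := by
  have hclosed : ∀ v w : V, (∃ u ∈ U m, (On ω).Reachable u v) → (Op ω).Adj v w →
      ∃ u ∈ U m, (On ω).Reachable u w := by
    intro v w hv hvw
    have hv0 : 0 ≤ v 0 := by
      obtain ⟨u, hu, huv⟩ := hv
      by_contra hneg
      exact h u hu (mem_K_of_reach hu.1 (not_le.mp hneg) huv)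
    obtain ⟨h1, h2⟩ := (op_adj ω).mp hvw
    rcases h1 with h1 | (h1 | h1) | (h1 | h1)
    · obtain ⟨u, hu, huv⟩ := hv
      exact ⟨u, hu, huv.trans (SimpleGraph.Adj.reachable ⟨hvw, h1⟩)⟩
    · exact ⟨w, h1.2.1, SimpleGraph.Reachable.refl _⟩
    · exact ⟨w, h1.1, SimpleGraph.Reachable.refl _⟩
    · have := h1.1.1
      simp only [R, if_true] at this
      omega
    · have := h1.2.1.1
      simp only [R, if_true] at this
      omega
  intro hr
  obtain ⟨w⟩ := hr
  have key : ∀ (v v' : V) (w : (Op ω).Walk v v'), (∃ u ∈ U m, (On ω).Reachable u v) →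
      ∃ u ∈ U m, (On ω).Reachable u v' := by
    intro v v' w
    induction w with
    | nil => exact id
    | @cons a b c hab p ih => exact fun ha => ih (hclosed a b ha hab)
  obtain ⟨u, hu, huv⟩ := key 0 (R 0) w ⟨0, zero_mem_U m, SimpleGraph.Reachable.refl _⟩
  apply h u hu (mem_K_of_reach hu.1 _ huv)
  simp [R]

/-- points of the cone at level `t` -/
noncomputable def Ut (m : ℕ) (t : ℕ) : Finset V :=
  Fintype.piFinset (fun j : Fin 6 =>
    if j = 0 then {(t : ℤ)} else if j = 5 then Finset.Icc 0 ((m : ℤ) * t) else Finset.Icc 0 (t : ℤ))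

lemma Ut_card (m t : ℕ) : (Ut m t).card = (t + 1) ^ 4 * (m * t + 1) := by
  unfold Ut
  rw [Fintype.card_piFinset, Fin.prod_univ_succ, Fin.prod_univ_castSucc]
  have h1 : ∀ i : Fin 4, ((if (i.castSucc.succ : Fin 6) = 0 then ({(t : ℤ)} : Finset ℤ) else
      if (i.castSucc.succ : Fin 6) = 5 then Finset.Icc 0 ((m : ℤ) * t)
      else Finset.Icc 0 (t : ℤ))).card = t + 1 := by
    intro i
    fin_cases i <;> simp [Fin.ext_iff]
  simp only [h1]
  have h2 : ((Fin.last 4).succ : Fin 6) = 5 := rfl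
  have h3 : ((m : ℤ) * t + 1).toNat = m * t + 1 := by
    have : ((m : ℤ) * t + 1) = ((m * t + 1 : ℕ) : ℤ) := by push_cast; ring
    rw [this, Int.toNat_natCast]
  rw [h2]
  simp [h3]

lemma U_sub (m : ℕ) {u : V} (hu : u ∈ U m) : u ∈ Ut m (u 0).toNat := by
  obtain ⟨h0, hx, hy1, hy2⟩ := hu
  unfold Ut
  rw [Fintype.mem_piFinset]
  have e : ((u 0).toNat : ℤ) = u 0 := Int.toNat_of_nonneg h0
  rw [e]
  refine coord_cases _ ?_ ?_ ?_
  · simp
  · intro i
    have h1 : xi i ≠ 0 := Fin.succ_ne_zero _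
    have h2 : xi i ≠ 5 := by unfold xi; fin_cases i <;> decide
    rw [if_neg h1, if_neg h2, Finset.mem_Icc]
    exact hx i
  · have h1 : yi ≠ 0 := Fin.succ_ne_zero _
    have h2 : yi = 5 := rfl
    rw [if_neg h1, if_pos h2, Finset.mem_Icc]
    exact ⟨hy1, hy2⟩

lemma num_bound (N t : ℕ) (hN : 100000 ≤ N) :
    (((t + 1) ^ 4 * (N * t + 1) : ℕ) : ℝ) * ((12 : ℝ) ^ (t + 1) * ((N : ℝ)⁻¹) ^ (t + 1)) ≤
      1 / 10 * (1 / 2) ^ t := by
  have hNr : (100000 : ℝ) ≤ N := by exact_mod_cast hN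
  have hN0 : (0 : ℝ) < N := by linarith
  cases t with
  | zero =>
    simp
    rw [← div_eq_mul_inv, div_le_iff₀ hN0]
    linarith
  | succ t =>
    have h1 : ((t : ℝ) + 2) ≤ 2 ^ (t + 1) := by
      have : t + 1 < 2 ^ (t + 1) := Nat.lt_two_pow_self
      have h2 : ((t + 1 + 1 : ℕ) : ℝ) ≤ ((2 ^ (t + 1) : ℕ) : ℝ) := by exact_mod_cast this
      push_cast at h2
      linarith
    have ht : (0 : ℝ) ≤ (t : ℝ) := by positivity
    have h2 : (((t + 1 + 1) ^ 4 * (N * (t + 1) + 1) : ℕ) : ℝ) ≤ N * 32 ^ (t + 1) := by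
      push_cast
      have e1 : ((t : ℝ) + 1 + 1) ^ 4 * (N * (t + 1) + 1) ≤ N * (t + 2) ^ 5 := by
        have : (N : ℝ) * (t + 1) + 1 ≤ N * (t + 2) := by nlinarith
        calc ((t : ℝ) + 1 + 1) ^ 4 * (N * (t + 1) + 1) ≤ (t + 1 + 1) ^ 4 * (N * (t + 2)) :=
              mul_le_mul_of_nonneg_left this (by positivity)
          _ = _ := by ring
      refine le_trans e1 ?_
      have e2 : ((t : ℝ) + 2) ^ 5 ≤ 32 ^ (t + 1) := by
        have := pow_le_pow_left₀ (by positivity) h1 5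
        refine le_trans this (le_of_eq ?_)
        rw [← pow_mul, mul_comm, pow_mul]
        norm_num
      exact mul_le_mul_of_nonneg_left e2 hN0.le
    have h3 : (N : ℝ) * 32 ^ (t + 1) * ((12 : ℝ) ^ (t + 1 + 1) * ((N : ℝ)⁻¹) ^ (t + 1 + 1)) =
        12 * (384 / N) * (384 / N) ^ t := by
      rw [pow_succ (12 : ℝ), pow_succ ((N : ℝ)⁻¹)]
      have : (384 : ℝ) = 32 * 12 := by norm_num
      rw [this, div_eq_mul_inv, mul_pow, mul_pow, pow_succ (32 : ℝ), pow_succ (12 : ℝ),
        pow_succ ((N : ℝ)⁻¹)]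
      field_simp
    have h4 : (384 / (N : ℝ)) ≤ 1 / 2 := by
      rw [div_le_iff₀ hN0]; linarith
    have h5 : (384 / (N : ℝ)) ^ t ≤ (1 / 2) ^ t := pow_le_pow_left₀ (by positivity) h4 t
    have h6 : 12 * (384 / (N : ℝ)) ≤ 1 / 20 := by
      rw [mul_div_assoc', div_le_iff₀ hN0]; linarith
    calc _ ≤ (N : ℝ) * 32 ^ (t + 1) * ((12 : ℝ) ^ (t + 1 + 1) * ((N : ℝ)⁻¹) ^ (t + 1 + 1)) :=
          mul_le_mul_of_nonneg_right h2 (by positivity)
      _ = 12 * (384 / N) * (384 / N) ^ t := h3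
      _ ≤ 1 / 20 * (1 / 2) ^ t := by
          apply mul_le_mul h6 h5 (by positivity) (by norm_num)
      _ = _ := by rw [pow_succ]; ring

lemma barrier_bound (N : ℕ) (hN : 100000 ≤ N) (hm : m = N) (p : NNReal) (hp : p ≤ 1)
    (hpN : p = (N : NNReal)⁻¹) :
    bern (Gr m).edgeSet p hp {ω | ∃ u ∈ U m, ω ∈ K m u ((u 0).toNat + 1)} ≤
      ENNReal.ofReal (1 / 5) := by
  subst hm
  have hsub : {ω | ∃ u ∈ U m, ω ∈ K m u ((u 0).toNat + 1)} ⊆
      ⋃ t : ℕ, ⋃ u ∈ Ut m t, K m u (t + 1) := by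
    rintro ω ⟨u, hu, hω⟩
    rw [Set.mem_iUnion]
    refine ⟨(u 0).toNat, ?_⟩
    rw [Set.mem_iUnion₂]
    exact ⟨u, U_sub m hu, hω⟩
  refine le_trans (measure_mono hsub) ?_
  refine le_trans (measure_iUnion_le _) ?_
  have h1 : ∀ t : ℕ, bern (Gr m).edgeSet p hp (⋃ u ∈ Ut m t, K m u (t + 1)) ≤
      ENNReal.ofReal (1 / 10 * (1 / 2) ^ t) := by
    intro t
    refine le_trans (measure_biUnion_finset_le _ _) ?_
    refine le_trans (Finset.sum_le_sum (fun u _ => K_bound p hp u (t + 1))) ?_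
    rw [Finset.sum_const, Ut_card, nsmul_eq_mul]
    refine le_trans (le_of_eq ?_) (ENNReal.ofReal_le_ofReal (num_bound m t hN))
    rw [ENNReal.ofReal_mul (by positivity), ENNReal.ofReal_mul (by positivity),
      ENNReal.ofReal_pow (by positivity), ENNReal.ofReal_pow (by positivity),
      ENNReal.ofReal_natCast]
    have e1 : ENNReal.ofReal 12 = 12 := by norm_num
    have e2 : ENNReal.ofReal ((m : ℝ)⁻¹) = (p : ENNReal) := by
      have : ((m : ℝ)⁻¹) = ((p : NNReal) : ℝ) := by rw [hpN]; simp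
      rw [this, ENNReal.ofReal_coe_nnreal]
    rw [e1, e2]
  refine le_trans (ENNReal.tsum_le_tsum h1) ?_
  rw [← ENNReal.ofReal_tsum_of_nonneg (fun t => by positivity)
    ((summable_geometric_two).mul_left _)]
  rw [tsum_mul_left, tsum_geometric_two]
  apply ENNReal.ofReal_le_ofReal
  norm_num

end Pool.Agent.Lib.MP_d2b88b_pr
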